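import Pool.Agent.Work.MP_d7201b_al_helper31x.MoSum

/-!
# BLOCK A (helper31): the system of the checker from the formal relations
-/

set_option autoImplicit false

namespace Pool.Agent.Work.MP_d7201b_al.L3x

open L2 L3

universe u v

section

variable {G : Type u} [Group G] {M : Type v} [AddCommGroup M]

/-- The signed sum of the five terms. -/
def PQ (F : List G → M) (h u : G) (ws : List (List G)) : List G → M :=
  mo h 0 4 ws (Wd F [u * h ^ 4]) - 4 • mo h 0 3 ws (Wd F [u * h ^ 3]) +
      6 • mo h 0 2 ws (Wd F [u * h ^ 2]) - 4 • mo h 0 1 ws (Wd F [u * h]) +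
      mo h 0 0 ws (Wd F [u])

theorem PQ_comm (F : List G → M) (h u n m : G) (l : List G) (pre post : List (List G)) :
    PQ F h u (pre ++ (n :: m :: l) :: post) =
      PQ F h u (pre ++ (m :: l) :: [n] :: post) - PQ F h u (pre ++ [n] :: (m :: l) :: post) := by
  simp only [PQ, mo_comm h n m l, smul_sub]
  abel

theorem PQ_single {F : List G → M} (hF : RS F) (h u : G) (vs : List G) :
    PQ F h u (vs.map fun v => [v]) = 0 := by
  funext rest
  have h1 := hF.pq h u vs rest
  have e : ∀ j, mo h 0 j (vs.map fun v => [v]) (Wd F [u * h ^ j]) rest =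
      ((pw (· * h) j [u] vs).map fun y => F (y ++ rest)).sum := by
    intro j
    have := mo_single F h [u] j 0 vs rest
    simp only [List.map_cons, List.map_nil, zero_add, pow_zero, mul_one, List.map_id'] at this
    exact this
  have hl : ∀ (k : ℤ) (L : List (List G)),
      ev F (L.map fun w => (k, w ++ rest)) = k • ((L.map fun y => F (y ++ rest)).sum) := by
    intro k L
    induction L with
    | nil => simp
    | cons a L ihL =>
      rw [List.map_cons, ev_cons, ihL, List.map_cons, List.sum_cons, smul_add]
  simp only [pRel, List.flatMap_cons, List.flatMap_nil, List.append_nil, ev_append, hl, w4,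
    one_smul] at h1
  have e1 := e 1
  have e0 := e 0
  rw [pow_one] at e1
  rw [pow_zero, mul_one] at e0
  show mo h 0 4 (vs.map fun v => [v]) (Wd F [u * h ^ 4]) rest -
      4 • mo h 0 3 (vs.map fun v => [v]) (Wd F [u * h ^ 3]) rest +
      6 • mo h 0 2 (vs.map fun v => [v]) (Wd F [u * h ^ 2]) rest -
      4 • mo h 0 1 (vs.map fun v => [v]) (Wd F [u * h]) rest +
      mo h 0 0 (vs.map fun v => [v]) (Wd F [u]) rest = 0
  rw [e, e, e, e1, e0, ← h1]
  simp only [neg_smul, ← natCast_zsmul]
  push_cast
  abel

theorem PQ_zero {F : List G → M} (hF : RS F) (h u : G) :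
    ∀ (k : ℕ) (ws : List (List G)), (∀ w ∈ ws, w ≠ []) →
      (ws.map fun w => w.length - 1).sum = k → PQ F h u ws = 0 := by
  intro k
  induction k with
  | zero =>
    intro ws hw hk
    have : ∃ vs : List G, ws = vs.map fun v => [v] := by
      clear hF
      induction ws with
      | nil => exact ⟨[], rfl⟩
      | cons w ws ih =>
        rw [List.map_cons, List.sum_cons] at hk
        obtain ⟨vs, hvs⟩ := ih (fun w' hw' => hw w' (List.mem_cons_of_mem _ hw')) (by omega)
        have hne := hw w List.mem_cons_self
        cases w with
        | nil => exact absurd rfl hne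
        | cons a t =>
          cases t with
          | nil => exact ⟨a :: vs, by rw [hvs]; rfl⟩
          | cons b t => simp at hk
    obtain ⟨vs, rfl⟩ := this
    exact PQ_single hF h u vs
  | succ k ih =>
    intro ws hw hk
    -- an entry of length at least two
    have : ∃ (pre post : List (List G)) (n m : G) (l : List G),
        ws = pre ++ (n :: m :: l) :: post := by
      clear ih hF
      induction ws with
      | nil => simp at hk
      | cons w ws ih2 =>
        have hne := hw w List.mem_cons_self
        rcases w with _ | ⟨a, _ | ⟨b, t⟩⟩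
        · exact absurd rfl hne
        · rw [List.map_cons, List.sum_cons] at hk
          obtain ⟨pre, post, n, m, l, hws⟩ := ih2
            (fun w' hw' => hw w' (List.mem_cons_of_mem _ hw')) (by simpa using hk)
          exact ⟨[a] :: pre, post, n, m, l, by rw [hws]; rfl⟩
        · exact ⟨[], ws, a, b, t, rfl⟩
    obtain ⟨pre, post, n, m, l, rfl⟩ := this
    rw [PQ_comm, ih, ih, sub_zero]
    · intro w hw'
      simp only [List.mem_append, List.mem_cons] at hw'
      rcases hw' with h1 | h1 | h1 | h1
      · exact hw w (by simp [h1])
      · rw [h1]; simp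
      · rw [h1]; simp
      · exact hw w (by simp [h1])
    · simp only [List.map_append, List.map_cons, List.sum_append, List.sum_cons, List.length_cons,
        List.length_nil] at hk ⊢
      omega
    · intro w hw'
      simp only [List.mem_append, List.mem_cons] at hw'
      rcases hw' with h1 | h1 | h1 | h1
      · exact hw w (by simp [h1])
      · rw [h1]; simp
      · rw [h1]; simp
      · exact hw w (by simp [h1])
    · simp only [List.map_append, List.map_cons, List.sum_append, List.sum_cons, List.length_cons,
        List.length_nil] at hk ⊢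
      omega

/-- The Lie relations. -/
theorem lie_of {F : List G → M} (hF : RS F) (l : List G) (hl : l ≠ []) (z : G) :
    Br z (Wd F l) + adR l.reverse (Wd F [z]) = 0 := by
  funext rest
  have h1 := hF.lie l hl z rest
  rw [lieRel, ev_cons, one_smul, ev, List.map_map] at h1
  show Wd F l (z :: rest) + adR l.reverse (Wd F [z]) rest = 0
  rw [adR_apply]
  exact h1

omit [Group G] in
theorem sum_swap (l l' : List G) (f : G → G → M) :
    (l.map fun a => (l'.map fun b => f a b).sum).sum =
      (l'.map fun b => (l.map fun a => f a b).sum).sum := by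
  induction l with
  | nil => simp
  | cons a l ih => simp only [List.map_cons, List.sum_cons, ih, sum_map_add]

omit [Group G] in
theorem sumBr_apply (ms : List G) (f : List G → M) (rest : List G) :
    sumBr ms f rest = (ms.map fun m => f (m :: rest)).sum := by
  rw [sumBr, sum_apply', List.map_map]
  rfl

omit [Group G] in
theorem comm4 (ms : List G) (f : G → G → G → G → M) :
    (ms.map fun d => (ms.map fun c => (ms.map fun b => (ms.map fun a =>
      f a b c d).sum).sum).sum).sum =
    (ms.map fun a => (ms.map fun b => (ms.map fun c => (ms.map fun d =>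
      f a b c d).sum).sum).sum).sum := by
  rw [sum_swap ms ms]
  have e1 : ∀ c', (ms.map fun d => (ms.map fun b => (ms.map fun a => f a b c' d).sum).sum).sum =
      (ms.map fun b => (ms.map fun a => (ms.map fun d => f a b c' d).sum).sum).sum := by
    intro c'
    rw [sum_swap ms ms]
    congr 1
    apply List.map_congr_left
    intro b _
    exact sum_swap ms ms _
  simp only [e1]
  rw [sum_swap ms ms]
  have e2 : ∀ b, (ms.map fun c' => (ms.map fun a => (ms.map fun d => f a b c' d).sum).sum).sum =
      (ms.map fun a => (ms.map fun c' => (ms.map fun d => f a b c' d).sum).sum).sum := by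
    intro b
    exact sum_swap ms ms _
  simp only [e2]
  exact sum_swap ms ms _

theorem np_of {F : List G → M} (hF : RS F) (u : G) (ms : List G) :
    sumBr ms (sumBr ms (sumBr ms (sumBr ms (Wd F [u])))) = 0 := by
  funext rest
  have h1 := hF.np u ms rest
  rw [ev, npRel] at h1
  simp only [sum_flatMap, List.map_map, Function.comp_def, one_smul] at h1
  simp only [sumBr_apply]
  rw [← comm4 ms (fun a b c d => F (u :: a :: b :: c :: d :: rest))] at h1
  exact h1

theorem per_of {F : List G → M} (hF : RS F) (pre : List G) (u h : G) :
    Wd F (pre ++ [u * h ^ 4]) - 4 • Wd F (pre ++ [u * h ^ 3]) +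
    6 • Wd F (pre ++ [u * h ^ 2]) - 4 • Wd F (pre ++ [u * h]) + Wd F (pre ++ [u]) = 0 := by
  have h0 := PQ_zero hF h u 0 [] (by simp) (by simp)
  have e : ∀ (s j : ℕ) (f : List G → M), mo h s j [] f = f := by
    intro s j
    induction j generalizing s with
    | zero => intro f; rfl
    | succ j ih => intro f; rw [mo_succ, ssum_nil, ih]; rfl
  simp only [PQ, e] at h0
  by_cases hp : pre = []
  · subst hp
    simpa using h0
  · have h1 : ∀ z : G, Wd F (pre ++ [z]) = - adR pre.reverse (Wd F [z]) := by
      intro z
      have h2 := lie_of hF pre hp z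
      have h3 : Wd F (pre ++ [z]) = Br z (Wd F pre) := by
        funext rest
        show F (pre ++ [z] ++ rest) = F (pre ++ (z :: rest))
        rw [List.append_assoc]; rfl
      rw [h3]
      exact eq_neg_of_add_eq_zero_left h2
    have h3 := congrArg (adR pre.reverse) h0
    simp only [map_add, map_sub, map_nsmul, map_zero] at h3
    rw [h1, h1, h1, h1, h1, ← neg_eq_zero, ← h3]
    simp only [smul_neg]
    abel

end

theorem stmt_A : Stmt_A.{u, v} := by
  intro G _ M _ F hF
  exact ⟨fun l hl z => lie_of hF l hl z, fun h u ws hw => PQ_zero hF h u _ ws hw rfl,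
    fun u ms => np_of hF u ms, fun pre u h => per_of hF pre u h⟩

end Pool.Agent.Work.MP_d7201b_al.L3x
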