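import Pool.Agent.Work.MP_d7201b_al_helper31x.A

/-!
# BLOCK B (helper31): the relation modulo 2
-/

set_option autoImplicit false

namespace Pool.Agent.Work.MP_d7201b_al.L3x

open L2 L3

universe u v

section

variable {ι κ α : Type*} {V : Type*} [AddCommGroup V]

theorem lsum_swap (l : List ι) (l' : List κ) (f : ι → κ → V) :
    (l.map fun a => (l'.map fun b => f a b).sum).sum =
      (l'.map fun b => (l.map fun a => f a b).sum).sum := by
  induction l with
  | nil => simp
  | cons a l ih => simp only [List.map_cons, List.sum_cons, ih, sum_map_add]

theorem lsum_ssum (L : List ι) (g : ι → List α → List α → V) (l : List α) :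
    (L.map fun y => ssum (g y) l).sum = ssum (fun p q => (L.map fun y => g y p q).sum) l :=
  lsum_swap L (splits l) fun y p => g y p.1 p.2

theorem ssum_comm (g : List α → List α → List α → List α → V) (l l' : List α) :
    ssum (fun p q => ssum (fun p' q' => g p q p' q') l') l =
      ssum (fun p' q' => ssum (fun p q => g p q p' q') l) l' :=
  lsum_swap (splits l) (splits l') fun p p' => g p.1 p.2 p'.1 p'.2

theorem pw_ne {sh : α → α} {w : List α} (hw : w ≠ []) (j : ℕ) :
    ∀ (vs : List α), ∀ y ∈ pw sh j w vs, y ≠ [] := by
  induction j with
  | zero =>
    intro vs y hy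
    cases vs with
    | nil =>
      rw [pw, List.mem_singleton] at hy
      rw [hy]; exact hw
    | cons a vs => simp [pw] at hy
  | succ j ih =>
    intro vs y hy
    simp only [pw, List.mem_flatMap, List.mem_map] at hy
    obtain ⟨p, _, w'', hw'', rfl⟩ := hy
    have := ih p.1 w'' hw''
    intro h0
    rw [List.append_eq_nil_iff, List.map_eq_nil_iff] at h0
    exact this h0.1

end

section

variable {G : Type u} [Group G] {M : Type v} [AddCommGroup M]

/-- Brackets with letters after the bracket with a commutator: they are derivations. -/
theorem comp_adR (q : List G) (L : List G) (hL : L ≠ []) (f : List G → M) :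
    comp (q.map fun a => Br a) (adR L f) =
      ssum (fun q1 q2 => adR (q2.reverse ++ L) (comp (q1.map fun a => Br a) f)) q := by
  induction q using List.reverseRecOn generalizing f with
  | nil => rw [ssum_nil]; rfl
  | append_singleton q a ih =>
    rw [List.map_append, comp_append, ih, ssum_append]
    simp only [List.map_cons, List.map_nil, comp_cons, comp_nil]
    have key : ∀ (g : List G → List G → (List G → M)) (l : List G),
        Br a (ssum g l) = ssum (fun p q => Br a (g p q)) l := fun g l => ssum_hom (Br a) g l
    rw [key]
    apply ssum_congr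
    intro q1 q2
    rw [ssum_cons, ssum_nil]
    have hne : q2.reverse ++ L ≠ [] := by
      intro h0
      rw [List.append_eq_nil_iff] at h0
      exact hL h0.2
    obtain ⟨m, l, hml⟩ := List.exists_cons_of_ne_nil hne
    simp only [List.append_nil, List.reverse_append, List.reverse_cons, List.reverse_nil,
      List.nil_append, List.cons_append, List.map_append, List.map_cons, List.map_nil, comp_append,
      comp_cons, comp_nil]
    rw [hml]
    have h9 : ∀ x : List G → M, adR (a :: m :: l) x = Br a (adR (m :: l) x) -
        adR (m :: l) (Br a x) := fun x => rfl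
    rw [h9]
    abel

theorem op_single (h : G) (s : ℕ) (q : List G) :
    (q.map fun v => [v]).map (op h s : List G → ((List G → M) →+ (List G → M))) =
      (q.map (· * h ^ s)).map fun a => Br a := by
  rw [List.map_map, List.map_map]
  rfl

/-- The Leibniz expansion. -/
theorem mo_leibniz (h : G) (w : List G) (hw : w ≠ []) (j : ℕ) :
    ∀ (s : ℕ) (vs : List G) (f : List G → M),
      mo h s j ((vs.map fun v => [v]) ++ [w.reverse]) f =
        ((List.range j).map fun a => ssum (fun q1 q2 =>
          ((pw (· * h) a w q2).map fun y =>
            adR ((y.map (· * h ^ s)).reverse) (mo h s j (q1.map fun v => [v]) f)).sum) vs).sum := by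
  induction j with
  | zero =>
    intro s vs f
    rw [mo_zero_ne h s (by simp)]
    simp
  | succ j ih =>
    intro s vs f
    rw [List.range_succ_eq_map, List.map_cons, List.sum_cons, List.map_map]
    -- the left hand side
    rw [mo_succ, ssum_append, ssum_map]
    simp only [ssum_cons, ssum_nil, List.append_nil]
    rw [ssum_add, add_comm]
    congr 1
    · -- `w` in the last factor
      rw [ssum_snd_nil (fun q1 q2 => ((pw (· * h) 0 w q2).map fun y =>
            adR ((y.map (· * h ^ s)).reverse) (mo h s (j + 1) (q1.map fun v => [v]) f)).sum)]
      · simp only [pw, List.map_cons, List.map_nil, List.sum_cons, List.sum_nil, add_zero]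
        rw [mo_succ, ssum_map, ssum_hom]
        apply ssum_congr
        intro p q
        rw [List.map_append, comp_append]
        simp only [List.map_cons, List.map_nil, comp_cons, comp_nil, op, List.map_reverse]
      · intro p q hq
        cases q with
        | nil => exact absurd rfl hq
        | cons a q => simp [pw]
    · -- `w` in an earlier factor
      have e1 : ∀ p q : List G,
          comp ((q.map fun v => [v]).map (op h s))
            (mo h (s + 1) j ((p.map fun v => [v]) ++ [w.reverse]) f) =
          ((List.range j).map fun a => ssum (fun r1 r2 => ssum (fun t1 t2 =>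
            ((pw (· * h) a w r2).map fun y =>
            adR (((y.map (· * h) ++ t2).map (· * h ^ s)).reverse)
              (comp ((t1.map fun v => [v]).map (op h s))
                (mo h (s + 1) j (r1.map fun v => [v]) f))).sum) q) p).sum := by
        intro p q
        rw [ih]
        rw [← compHom_apply, map_list_sum, List.map_map]
        congr 1
        apply List.map_congr_left
        intro a _
        simp only [Function.comp_apply]
        rw [ssum_hom]
        apply ssum_congr
        intro r1 r2
        rw [map_list_sum, List.map_map]
        simp only [Function.comp_def, compHom_apply]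
        -- move the brackets of the last factor
        have e2 : ∀ y ∈ pw (· * h) a w r2,
            comp ((q.map fun v => [v]).map (op h s))
              (adR ((y.map (· * h ^ (s + 1))).reverse)
                (mo h (s + 1) j (r1.map fun v => [v]) f)) =
            ssum (fun t1 t2 => adR (((y.map (· * h) ++ t2).map (· * h ^ s)).reverse)
              (comp ((t1.map fun v => [v]).map (op h s))
                (mo h (s + 1) j (r1.map fun v => [v]) f))) q := by
          intro y hy
          have hy' : (y.map (· * h ^ (s + 1))).reverse ≠ [] := by
            have := pw_ne hw a _ y hy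
            simpa using this
          rw [op_single, comp_adR _ _ hy', ssum_map]
          apply ssum_congr
          intro t1 t2
          rw [← op_single, ← List.reverse_append]
          congr 3
          rw [List.map_append, List.map_map]
          congr 1
          apply List.map_congr_left
          intro g _
          simp only [Function.comp_apply]
          rw [mul_assoc, ← pow_succ']
        rw [List.map_congr_left e2, lsum_ssum]
      simp only [e1]
      rw [← lsum_ssum]
      congr 1
      apply List.map_congr_left
      intro a _
      simp only [Function.comp_apply]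
      rw [ssum_four]
      apply ssum_congr
      intro R1 R2
      rw [ssum_comm]
      simp only [pw]
      rw [sum_flatMap]
      simp only [ssum]
      congr 1
      apply List.map_congr_left
      rintro ⟨r2, t2⟩ _
      rw [lsum_swap, List.map_map]
      congr 1
      apply List.map_congr_left
      intro y _
      simp only [Function.comp_apply]
      rw [mo_succ, ssum_map, ssum_hom]
      rfl

/-- Modulo `2`, the bracket with `w (1 + h + h² + h³)` is zero on the letters. -/
theorem central_two {F : List G → M} (hF : RS F) (h2 : ∀ m : M, 2 • m = 0) (h : G) (w : List G)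
    (hw : w ≠ []) (vs : List G) (u : G) (rest : List G) :
    ((List.range 4).map fun a => ((pw (· * h) a w vs).map fun y =>
      F (y ++ u :: rest)).sum).sum = 0 := by
  have h2' : ∀ f : List G → M, 2 • f = 0 := fun f => by
    funext r
    exact h2 (f r)
  have h4 : ∀ f : List G → M, 4 • f = 0 := fun f => by
    rw [show (4 : ℕ) = 2 * 2 from rfl, mul_smul, h2']
  have h6 : ∀ f : List G → M, 6 • f = 0 := fun f => by
    rw [show (6 : ℕ) = 2 * 3 from rfl, mul_smul, h2']
  have hneg : ∀ f : List G → M, -f = f := fun f => by
    have := h2' f
    rw [two_smul] at this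
    exact neg_eq_of_add_eq_zero_left this
  -- the fourth power
  have hp : ∀ ws : List (List G), (∀ w ∈ ws, w ≠ []) → ws ≠ [] →
      mo h 0 4 ws (Wd F [u * h ^ 4]) = 0 := by
    intro ws hws hne
    have := PQ_zero hF h u _ ws hws rfl
    rw [PQ, h4, h4, h6, mo_zero_ne h 0 hne] at this
    simpa using this
  have hp0 : mo h 0 4 [] (Wd F [u * h ^ 4]) = Wd F [u] := by
    have := PQ_zero hF h u _ [] (by simp) rfl
    rw [PQ, h4, h4, h6, mo_zero_nil] at this
    simp only [sub_zero, add_zero] at this
    rw [eq_neg_of_add_eq_zero_left this, hneg]
  have hw' : w.reverse ≠ [] := by simpa using hw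
  have hL := mo_leibniz h w hw 4 0 vs (Wd F [u * h ^ 4])
  rw [hp _ (by
    intro w' hw2
    rw [List.mem_append, List.mem_map, List.mem_singleton] at hw2
    rcases hw2 with ⟨v, _, rfl⟩ | rfl
    · simp
    · exact hw') (by simp)] at hL
  have e1 : ∀ a, ssum (fun q1 q2 => ((pw (· * h) a w q2).map fun y =>
      adR ((y.map (· * h ^ 0)).reverse)
        (mo h 0 4 (q1.map fun v => [v]) (Wd F [u * h ^ 4]))).sum) vs =
      ((pw (· * h) a w vs).map fun y => Br u (Wd F y)).sum := by
    intro a
    rw [ssum_fst_nil]
    · congr 1
      apply List.map_congr_left
      intro y hy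
      have hy' := pw_ne hw a vs y hy
      rw [List.map_nil, hp0]
      have := lie_of hF y hy' u
      simp only [pow_zero, mul_one, List.map_id']
      rw [eq_neg_of_add_eq_zero_left this, hneg]
    · intro p q hp'
      have hp2 : mo h 0 4 (p.map fun v => [v]) (Wd F [u * h ^ 4]) = 0 := by
        apply hp
        · intro w' hw2
          rw [List.mem_map] at hw2
          obtain ⟨v, _, rfl⟩ := hw2
          simp
        · simpa using hp'
      rw [hp2]
      simp
  simp only [e1] at hL
  have h5 := congrFun hL.symm rest
  rw [sum_apply', List.map_map] at h5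
  have e2 : ∀ a, ((pw (· * h) a w vs).map fun y => Br u (Wd F y)).sum rest =
      ((pw (· * h) a w vs).map fun y => F (y ++ u :: rest)).sum := by
    intro a
    rw [sum_apply', List.map_map]
    rfl
  simp only [Function.comp_def, e2] at h5
  exact h5

theorem RS.lie_app {F : List G → M} (hF : RS F) (t : List G) (l : List G) (hl : l ≠ []) (z : G) :
    Br z (Wd (fun w => F (w ++ t)) l) + adR l.reverse (Wd (fun w => F (w ++ t)) [z]) = 0 := by
  funext rest
  have h1 := congrFun (lie_of hF l hl z) (rest ++ t)
  have h2 : (Br z (Wd F l) + adR l.reverse (Wd F [z])) (rest ++ t) =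
    Wd F l (z :: (rest ++ t)) + adR l.reverse (Wd F [z]) (rest ++ t) := rfl
  rw [h2, adR_apply] at h1
  show Wd (fun w => F (w ++ t)) l (z :: rest) + adR l.reverse (Wd (fun w => F (w ++ t)) [z]) rest = 0
  rw [adR_apply]
  simp only [Wd, List.append_assoc, List.cons_append, List.nil_append] at h1 ⊢
  exact h1

end

theorem stmt_B : Stmt_B.{u, v} := by
  intro G _ M _ F hF h2 d t
  set F' : List G → M := fun w => F (w ++ d :: t) with hF'
  have hlie : ∀ l : List G, l ≠ [] → ∀ z : G,
      Br z (Wd F' l) + adR l.reverse (Wd F' [z]) = 0 := fun l hl z => RS.lie_app hF (d :: t) l hl z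
  have hcr : ∀ (h : G) (w : List G) (vs : List G), w ≠ [] →
    mo h 0 3 (vs.map fun v => [v]) (Wd F' (w.map (· * h ^ 3))) +
      mo h 0 2 (vs.map fun v => [v]) (Wd F' (w.map (· * h ^ 2))) +
      mo h 0 1 (vs.map fun v => [v]) (Wd F' (w.map (· * h))) +
      mo h 0 0 (vs.map fun v => [v]) (Wd F' w) = 0 := by
    intro h w vs hw
    funext rest
    have e : ∀ j, mo h 0 j (vs.map fun v => [v]) (Wd F' (w.map (· * h ^ j))) rest =
        ((pw (· * h) j w vs).map fun y => F' (y ++ rest)).sum := by
      intro j
      have := mo_single F' h w j 0 vs rest
      simp only [zero_add, pow_zero, mul_one, List.map_id'] at this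
      exact this
    have e1 := e 1
    have e0 := e 0
    simp only [pow_one] at e1
    simp only [pow_zero, mul_one, List.map_id'] at e0
    show mo h 0 3 (vs.map fun v => [v]) (Wd F' (w.map (· * h ^ 3))) rest +
      mo h 0 2 (vs.map fun v => [v]) (Wd F' (w.map (· * h ^ 2))) rest +
      mo h 0 1 (vs.map fun v => [v]) (Wd F' (w.map (· * h))) rest +
      mo h 0 0 (vs.map fun v => [v]) (Wd F' w) rest = 0
    rw [e, e, e1, e0]
    obtain ⟨z, r, hzr⟩ : ∃ (z : G) (r : List G), rest ++ d :: t = z :: r := by
      cases rest with
      | nil => exact ⟨d, t, rfl⟩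
      | cons a l => exact ⟨a, l ++ d :: t, rfl⟩
    have h5 := central_two hF h2 h w hw vs z r
    have e3 : ∀ y : List G, F' (y ++ rest) = F (y ++ z :: r) := by
      intro y
      show F (y ++ rest ++ d :: t) = _
      rw [List.append_assoc, hzr]
    simp only [e3]
    rw [← h5]
    simp only [List.range_succ, List.range_zero, List.nil_append, List.map_cons,
      List.map_nil, List.sum_cons, List.sum_nil, add_zero, List.cons_append]
    abel
  refine ⟨hlie, hcr, ?_, ?_⟩
  · intro u ms
    funext rest
    have h1 := congrFun (np_of hF u ms) (rest ++ d :: t)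
    simp only [sumBr_apply] at h1 ⊢
    exact h1
  · intro pre u h
    have h0 := hcr h [u] [] (by simp)
    have e : ∀ (s j : ℕ) (f : List G → M), mo h s j [] f = f := by
      intro s j
      induction j generalizing s with
      | zero => intro f; rfl
      | succ j ih => intro f; rw [mo_succ, ssum_nil, ih]; rfl
    simp only [List.map_nil, e, List.map_cons] at h0
    by_cases hp : pre = []
    · subst hp
      simpa using h0
    · have h1 : ∀ z : G, Wd F' (pre ++ [z]) = - adR pre.reverse (Wd F' [z]) := by
        intro z
        have h2 := hlie pre hp z
        have h3 : Wd F' (pre ++ [z]) = Br z (Wd F' pre) := by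
          funext rest
          show F' (pre ++ [z] ++ rest) = F' (pre ++ (z :: rest))
          rw [List.append_assoc]; rfl
        rw [h3]
        exact eq_neg_of_add_eq_zero_left h2
      have h3 := congrArg (adR pre.reverse) h0
      simp only [map_add, map_zero] at h3
      rw [h1, h1, h1, h1, ← neg_eq_zero, ← h3]
      abel

end Pool.Agent.Work.MP_d7201b_al.L3x
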