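import Pool.Agent.Work.MP_d7201b_al_helper73.Iface
import Pool.Agent.Work.MP_d7201b_al_helper73.Prod

/-!
# BLOCK C (helper31): the assembly
-/

set_option autoImplicit false

namespace Pool.Agent.Work.MP_d7201b_al.L3x

open L2 L3
open Pool.Agent.Work.MP_d7201b_al_helper73

universe u v

section

variable {G : Type u} [Group G] {N : Subgroup G} [hN : N.Normal] {c : ℕ}
  (hc : N.lowerCentralSeries (c + 1) = ⊥) (x : G)

theorem brs_apply (l : List G) (v : List G → Last N c hc) (r : List G) :
    brs hc x l v r = v (l.map (cj x) ++ r) := by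
  induction l generalizing v with
  | nil => rfl
  | cons a l ih =>
    rw [brs_cons, ih]
    rfl

theorem val_eq (a : G) (l : List G) : val hc x (a :: l) [] = value hc x a l := by
  rw [val, brs_apply, List.append_nil]
  rfl

theorem ev_hom {M : Type v} [AddCommGroup M] (φ : Last N c hc →+ M)
    (f : List G → (List G → Last N c hc)) (P : L2.Poly G) :
    ev (fun w => φ (f w [])) P = φ ((ev f P) []) := by
  induction P with
  | nil => simp only [ev_nil]; exact (map_zero φ).symm
  | cons t P ih =>
    rw [ev_cons, ev_cons, ih]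
    show t.1 • φ (f t.2 []) + φ ((ev f P) []) = φ (t.1 • f t.2 [] + (ev f P) [])
    rw [map_add, map_zsmul]

variable {x} in
/-- The values modulo `p` satisfy the relations. -/
theorem rs_val (hx : x ∈ N) (he : IsRightEngel 4 x) {M : Type v} [AddCommGroup M]
    (φ : Last N c hc →+ M) : RS (fun w => φ (val hc x w [])) where
  lie l hl z rest := by
    rw [ev_hom, lie_sound hc hx l hl z rest]
    exact map_zero φ
  pq g u vs rest := by
    rw [ev_hom, pq_sound hc hx he g u vs rest]
    exact map_zero φ
  np u ms rest := by
    rw [ev_hom, np_sound hc hx he u ms rest]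
    exact map_zero φ

end

theorem stmt_C : Stmt_C.{u} := by
  intro h2 h3 h5 G _ x he hn
  refine class_bound 6 (by norm_num) he ?_ hn
  intro c hc hk p hp a l hl
  have hx : x ∈ Subgroup.normalClosure {x} :=
    Subgroup.subset_normalClosure (Set.mem_singleton x)
  have hP : Stmt_P.{u} p 7 := by
    rw [Finset.mem_insert, Finset.mem_insert, Finset.mem_singleton] at hp
    rcases hp with rfl | rfl | rfl
    · exact h2
    · exact h3
    · exact h5
  have h := hP (G := G)
    (M := Last (Subgroup.normalClosure {x}) c hc ⧸
      (nsmulAddMonoidHom (α := Last (Subgroup.normalClosure {x}) c hc) p).range)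
    (fun w => QuotientAddGroup.mk' _ (val hc x w []))
    (rs_val hc hx he _) (by
      intro m
      obtain ⟨y, rfl⟩ := QuotientAddGroup.mk'_surjective _ m
      rw [← map_nsmul]
      exact (QuotientAddGroup.eq_zero_iff _).2 ⟨y, rfl⟩) (a :: l) (by
      rw [List.length_cons, hl]; omega)
  rw [val_eq] at h
  obtain ⟨w, hw⟩ := (QuotientAddGroup.eq_zero_iff _).1 h
  exact ⟨w, hw⟩

end Pool.Agent.Work.MP_d7201b_al.L3x
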