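import Pool.Agent.Work.MP_d7201b_al_helper73.Iface

/-!
# Sums over splittings, the adjacency lemma for `mo`, and evaluation lemmas (helper31)
-/

set_option autoImplicit false

namespace Pool.Agent.Work.MP_d7201b_al.L3x

open L2 L3

universe u v

section Splits

variable {α β : Type*} {V W : Type*} [AddCommGroup V] [AddCommGroup W]

/-- The sum over all splittings of a list. -/
def ssum (g : List α → List α → V) (l : List α) : V := ((splits l).map fun p => g p.1 p.2).sum

theorem ssum_nil (g : List α → List α → V) : ssum g [] = g [] [] := by
  simp [ssum, splits]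

theorem ssum_cons (g : List α → List α → V) (a : α) (l : List α) :
    ssum g (a :: l) = ssum (fun p q => g (a :: p) q + g p (a :: q)) l := by
  simp only [ssum, splits]
  rw [sum_flatMap]
  simp

theorem ssum_map (f : β → α) (g : List α → List α → V) (l : List β) :
    ssum g (l.map f) = ssum (fun p q => g (p.map f) (q.map f)) l := by
  simp only [ssum, splits_map, List.map_map]
  rfl

theorem ssum_add (g g' : List α → List α → V) (l : List α) :
    ssum (fun p q => g p q + g' p q) l = ssum g l + ssum g' l := by
  simp only [ssum]
  exact sum_map_add _ _ _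

theorem ssum_hom (φ : V →+ W) (g : List α → List α → V) (l : List α) :
    φ (ssum g l) = ssum (fun p q => φ (g p q)) l := by
  simp only [ssum]
  rw [map_list_sum, List.map_map]
  rfl

theorem ssum_neg (g : List α → List α → V) (l : List α) :
    ssum (fun p q => - g p q) l = - ssum g l := by
  have := ssum_hom (-AddMonoidHom.id V) g l
  simpa using this.symm

theorem ssum_sub (g g' : List α → List α → V) (l : List α) :
    ssum (fun p q => g p q - g' p q) l = ssum g l - ssum g' l := by
  simp only [sub_eq_add_neg, ssum_add, ssum_neg]

theorem ssum_zero (l : List α) : ssum (fun _ _ => (0 : V)) l = 0 := by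
  simp [ssum]

theorem ssum_congr {g g' : List α → List α → V} (h : ∀ p q, g p q = g' p q) (l : List α) :
    ssum g l = ssum g' l := by
  have : g = g' := by funext p q; exact h p q
  rw [this]

theorem ssum_congr_mem {g g' : List α → List α → V} {l : List α}
    (h : ∀ p ∈ splits l, g p.1 p.2 = g' p.1 p.2) : ssum g l = ssum g' l := by
  simp only [ssum]
  congr 1
  exact List.map_congr_left h

theorem ssum_append (g : List α → List α → V) (l l' : List α) :
    ssum g (l ++ l') = ssum (fun p q => ssum (fun p' q' => g (p ++ p') (q ++ q')) l') l := by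
  induction l generalizing g with
  | nil => rw [ssum_nil]; rfl
  | cons a l ih =>
    rw [List.cons_append, ssum_cons, ih, ssum_cons]
    simp only [ssum_add, List.cons_append]

/-- Exchange for splittings into four parts. -/
theorem ssum_four (g : List α → List α → List α → List α → V) (l : List α) :
    ssum (fun q1 q2 => ssum (fun r1 r2 => ssum (fun t1 t2 => g r1 r2 t1 t2) q2) q1) l =
      ssum (fun R1 R2 => ssum (fun r1 t1 => ssum (fun r2 t2 => g r1 r2 t1 t2) R2) R1) l := by
  induction l generalizing g with
  | nil => simp only [ssum_nil]
  | cons a l ih =>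
    rw [ssum_cons, ssum_cons]
    have e1 : (fun p q => ssum (fun r1 r2 => ssum (fun t1 t2 => g r1 r2 t1 t2) q) (a :: p) +
        ssum (fun r1 r2 => ssum (fun t1 t2 => g r1 r2 t1 t2) (a :: q)) p) =
        fun p q => (ssum (fun r1 r2 => ssum (fun t1 t2 => g (a :: r1) r2 t1 t2) q) p +
        ssum (fun r1 r2 => ssum (fun t1 t2 => g r1 (a :: r2) t1 t2) q) p) +
        (ssum (fun r1 r2 => ssum (fun t1 t2 => g r1 r2 (a :: t1) t2) q) p +
        ssum (fun r1 r2 => ssum (fun t1 t2 => g r1 r2 t1 (a :: t2)) q) p) := by
      funext p q
      rw [ssum_cons, ssum_add]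
      congr 1
      rw [← ssum_add]
      apply ssum_congr
      intro r1 r2
      rw [ssum_cons, ssum_add]
    have e2 : (fun p q => ssum (fun r1 t1 => ssum (fun r2 t2 => g r1 r2 t1 t2) q) (a :: p) +
        ssum (fun r1 t1 => ssum (fun r2 t2 => g r1 r2 t1 t2) (a :: q)) p) =
        fun p q => (ssum (fun r1 t1 => ssum (fun r2 t2 => g (a :: r1) r2 t1 t2) q) p +
        ssum (fun r1 t1 => ssum (fun r2 t2 => g r1 r2 (a :: t1) t2) q) p) +
        (ssum (fun r1 t1 => ssum (fun r2 t2 => g r1 (a :: r2) t1 t2) q) p +
        ssum (fun r1 t1 => ssum (fun r2 t2 => g r1 r2 t1 (a :: t2)) q) p) := by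
      funext p q
      rw [ssum_cons, ssum_add]
      congr 1
      rw [← ssum_add]
      apply ssum_congr
      intro r1 r2
      rw [ssum_cons, ssum_add]
    rw [e1, e2]
    simp only [ssum_add]
    rw [ih, ih (fun r1 r2 t1 t2 => g r1 (a :: r2) t1 t2),
      ih (fun r1 r2 t1 t2 => g r1 r2 (a :: t1) t2), ih (fun r1 r2 t1 t2 => g r1 r2 t1 (a :: t2))]
    abel

/-- Only the splitting `([], l)` contributes. -/
theorem ssum_fst_nil (g : List α → List α → V) (l : List α)
    (h : ∀ p q, p ≠ [] → g p q = 0) : ssum g l = g [] l := by
  induction l generalizing g with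
  | nil => rw [ssum_nil]
  | cons a l ih =>
    rw [ssum_cons, ssum_add, ih (fun p q => g p (a :: q)) (fun p q hp => h _ _ hp)]
    have : ssum (fun p q => g (a :: p) q) l = 0 := by
      rw [← ssum_zero (α := α) l]
      exact ssum_congr (fun p q => h _ _ (by simp)) l
    rw [this, zero_add]

/-- Only the splitting `(l, [])` contributes. -/
theorem ssum_snd_nil (g : List α → List α → V) (l : List α)
    (h : ∀ p q, q ≠ [] → g p q = 0) : ssum g l = g l [] := by
  induction l generalizing g with
  | nil => rw [ssum_nil]
  | cons a l ih =>
    rw [ssum_cons, ssum_add, ih (fun p q => g (a :: p) q) (fun p q hp => h _ _ hp)]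
    have : ssum (fun p q => g p (a :: q)) l = 0 := by
      rw [← ssum_zero (α := α) l]
      exact ssum_congr (fun p q => h _ _ (by simp)) l
    rw [this, add_zero]

end Splits

section Comp

variable {V : Type*} [AddCommGroup V]

theorem comp_sub (l : List (V →+ V)) (v v' : V) : comp l (v - v') = comp l v - comp l v' := by
  rw [sub_eq_add_neg, comp_add, comp_neg, sub_eq_add_neg]

/-- `comp l` as an additive map. -/
def compHom (l : List (V →+ V)) : V →+ V where
  toFun := comp l
  map_zero' := comp_zero l
  map_add' := comp_add l

@[simp] theorem compHom_apply (l : List (V →+ V)) (v : V) : compHom l v = comp l v := rfl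

end Comp

section Mo

variable {G : Type u} [Group G] {M : Type v} [AddCommGroup M]

/-- The operators of the entries in the factor with shift `h^s`. -/
def op (h : G) (s : ℕ) (w : List G) : (List G → M) →+ (List G → M) := adR (w.map (· * h ^ s))

theorem mo_succ (h : G) (s j : ℕ) (ws : List (List G)) (f : List G → M) :
    mo h s (j + 1) ws f = ssum (fun p q => comp (q.map (op h s)) (mo h (s + 1) j p f)) ws := rfl

theorem mo_zero_nil (h : G) (s : ℕ) (f : List G → M) : mo h s 0 [] f = f := rfl

theorem mo_zero_ne (h : G) (s : ℕ) {ws : List (List G)} (hw : ws ≠ []) (f : List G → M) :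
    mo h s 0 ws f = 0 := by
  cases ws with
  | nil => exact absurd rfl hw
  | cons a l => rfl

/-- The adjacency lemma. -/
theorem mo_adj (h : G) (a b c : List G)
    (hc : ∀ s, (op h s c : (List G → M) →+ (List G → M)) =
      (op h s b).comp (op h s a) - (op h s a).comp (op h s b)) :
    ∀ (j s : ℕ) (pre post : List (List G)) (f : List G → M),
      mo h s j (pre ++ c :: post) f =
        mo h s j (pre ++ a :: b :: post) f - mo h s j (pre ++ b :: a :: post) f := by
  intro j
  induction j with
  | zero =>
    intro s pre post f
    rw [mo_zero_ne h s (by simp), mo_zero_ne h s (by simp), mo_zero_ne h s (by simp), sub_zero]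
  | succ j ih =>
    intro s pre post f
    simp only [mo_succ, ssum_append, ssum_cons]
    rw [← ssum_sub]
    apply ssum_congr
    intro p q
    rw [← ssum_sub]
    apply ssum_congr
    intro p' q'
    have h1 : comp ((q ++ q').map (op h s)) (mo h (s + 1) j (p ++ c :: p') f) =
        comp ((q ++ q').map (op h s)) (mo h (s + 1) j (p ++ a :: b :: p') f) -
        comp ((q ++ q').map (op h s)) (mo h (s + 1) j (p ++ b :: a :: p') f) := by
      rw [ih, comp_sub]
    have h2 : ∀ x : List G → M, comp ((q ++ c :: q').map (op h s)) x =
        comp ((q ++ a :: b :: q').map (op h s)) x - comp ((q ++ b :: a :: q').map (op h s)) x := by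
      intro x
      simp only [List.map_append, List.map_cons, comp_append, comp_cons]
      rw [hc, ← comp_sub]
      rfl
    rw [h1, h2]
    abel

/-- Adjacency for a commutator entry. -/
theorem mo_comm (h n m : G) (l : List G) (j s : ℕ) (pre post : List (List G)) (f : List G → M) :
    mo h s j (pre ++ (n :: m :: l) :: post) f =
      mo h s j (pre ++ (m :: l) :: [n] :: post) f - mo h s j (pre ++ [n] :: (m :: l) :: post) f :=
  mo_adj h (m :: l) [n] (n :: m :: l) (fun _ => rfl) j s pre post f

/-- Evaluation of brackets with letters. -/
theorem comp_Br (h : G) (s : ℕ) (q : List G) (g : List G → M) (rest : List G) :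
    comp ((q.map fun v => [v]).map (op h s)) g rest = g (q.map (· * h ^ s) ++ rest) := by
  induction q generalizing g with
  | nil => rfl
  | cons a q ih =>
    simp only [List.map_cons, comp_cons]
    rw [ih]
    rfl

omit [Group G] in
theorem sum_apply' (L : List (List G → M)) (rest : List G) :
    L.sum rest = (L.map fun f => f rest).sum := by
  induction L with
  | nil => rfl
  | cons a L ih => rw [List.sum_cons, List.map_cons, List.sum_cons, ← ih]; rfl

omit [Group G] in
theorem ssum_apply {α : Type*} (g : List α → List α → (List G → M)) (l : List α) (rest : List G) :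
    ssum g l rest = ssum (fun p q => g p q rest) l :=
  ssum_hom (Pi.evalAddMonoidHom (fun _ : List G => M) rest) g l

/-- The values of `mo` for entries which are letters. -/
theorem mo_single (F : List G → M) (h : G) (w : List G) (j : ℕ) :
    ∀ (s : ℕ) (vs rest : List G),
      mo h s j (vs.map fun v => [v]) (Wd F (w.map (· * h ^ (s + j)))) rest =
        ((pw (· * h) j w vs).map fun y => F (y.map (· * h ^ s) ++ rest)).sum := by
  induction j with
  | zero =>
    intro s vs rest
    cases vs with
    | nil => simp [mo, pw, Wd]
    | cons a vs => simp [mo, pw]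
  | succ j ih =>
    intro s vs rest
    rw [mo_succ, ssum_map, ssum_apply]
    simp only [comp_Br, pw]
    rw [sum_flatMap]
    simp only [ssum]
    congr 1
    apply List.map_congr_left
    rintro ⟨p, q⟩ _
    simp only
    rw [show s + (j + 1) = s + 1 + j by omega, ih, List.map_map]
    congr 1
    apply List.map_congr_left
    intro y _
    simp only [Function.comp_apply, List.map_append, List.map_map, List.append_assoc]
    congr 2
    apply List.map_congr_left
    intro g _
    simp only [Function.comp_apply]
    rw [mul_assoc, ← pow_succ']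

omit [Group G] in
/-- Evaluation of the bracket with a commutator. -/
theorem adR_apply : ∀ (l : List G) (f : List G → M) (rest : List G),
    adR l f rest = ((adE l).map fun t => t.1 • f (t.2 ++ rest)).sum
  | [], f, rest => by simp [adR, adE]
  | [a], f, rest => by simp [adR, adE, Br]
  | n :: m :: l, f, rest => by
    have h1 := adR_apply (m :: l) f (n :: rest)
    have h2 := adR_apply (m :: l) (Br n f) rest
    show adR (m :: l) f (n :: rest) - adR (m :: l) (Br n f) rest = _
    rw [h1, h2]
    simp only [adE]
    rw [sum_flatMap]
    simp only [List.map_cons, List.map_nil, List.sum_cons, List.sum_nil, add_zero, sum_map_add,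
      neg_smul, List.append_assoc, List.cons_append, List.nil_append]
    rw [sub_eq_add_neg]
    congr 1
    induction adE (m :: l) with
    | nil => simp
    | cons a L ihL =>
      simp only [List.map_cons, List.sum_cons, neg_add, ihL]
      rfl

end Mo

end Pool.Agent.Work.MP_d7201b_al.L3x
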